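import Mathlib
import Pool.Agent.H810R2.AF
import Pool.Agent.H810R2.CSj

set_option autoImplicit false

/-!
The real square `K = [-1,1]² ⊆ ℝ² ⊆ ℂ²` is a unique C-support, but `𝒮₀(K) = ∅`.

The definitions `IsDual`, `IsAnFun`, `IsCarrier`, `IsCSupport`, `IsUniqueCSupport` are in
`Pool.Agent.H810R2.AF`, and `Supp`, `IsCSuppHyp`, `Supp₀`, `relInt` in `Pool.Agent.H810R2.CSi`.
-/

namespace Pool.Agent.Results.MP_564bf3_an.RealSquare

open Pool.Agent.H810R2.AF Pool.Agent.H810R2.CSi

/-- The real square `[-1,1]²`, as a subset of `ℂ²`. -/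
def square : Set (Fin 2 → ℂ) := {z | ∀ j, (z j).im = 0 ∧ |(z j).re| ≤ 1}

/-- The convex compact real square `K = [-1,1]² ⊆ ℂ²` is a C-support of some analytic functional
and is a unique C-support, but the closure of `𝒮₀(K)` is a proper subset of `𝒮(K)`; this holds
both when the relative interior of `K` in `V(K)` is the interior of `K` as a subset of the complex
affine space `V(K)`, and when it is the usual relative interior of the convex set `K`. -/
theorem result :
    IsUniqueCSupport square ∧ (∃ T, IsAnFun T ∧ IsCSupport T square) ∧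
      closure (Supp₀ relInt square) ⊂ Supp square ∧
      closure (Supp₀ (intrinsicInterior ℝ) square) ⊂ Supp square := by
  have h : ∀ I : Set (Fin 2 → ℂ) → Set (Fin 2 → ℂ), I square ⊆ RI square →
      closure (Supp₀ I square) ⊂ Supp square := by
    intro I hI
    have : Supp₀ I square = ∅ := Pool.Agent.H810R2.CSj.Supp₀_sq hI
    rw [this, closure_empty]
    exact (Set.empty_ssubset).2 Pool.Agent.H810R2.CSj.Supp_sq_nonempty
  obtain ⟨T, hT, hT'⟩ := exists_of_anFun Pool.Agent.H810R2.CSj.T₀
  exact ⟨isUniqueCSupport_of Pool.Agent.H810R2.CSh.isUniqueCSupport_sq,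
    ⟨T, hT, (isCSupport_iff hT').2 Pool.Agent.H810R2.CSj.T₀_csupport⟩,
    h _ (relInt_subset _), h _ (intrinsicInterior_subset' _)⟩

end Pool.Agent.Results.MP_564bf3_an.RealSquare
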