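import Mathlib
import Pool.Agent.H765R2.CS11
import Pool.Agent.H765R2.CS12
import Pool.Agent.H765R2.CS13

set_option autoImplicit false

open Pool.Agent.H765R2.CS

namespace Pool.Agent.Results.MP_564bf3_an.UniqueSupportBall

/-- The closed unit ball `K` of the `ℓ¹` norm in `ℂ²` is a unique C-support (and a C-support of some
analytic functional), but no supporting hyperplane of `K` belongs to `𝒮₀(K)`; in particular the
closure of `𝒮₀(K)` is a proper subset of `𝒮(K)`. -/
theorem result : IsCompact l1Ball ∧ Convex ℝ l1Ball ∧ (interior l1Ball).Nonempty ∧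
    (∃ T : (Cn 2 → ℂ) → ℂ, IsAnalyticFunctional T ∧ IsCSupport T l1Ball) ∧
    IsUniqueCSupport l1Ball ∧
    suppHyp₀ l1Ball = ∅ ∧ closure (suppHyp₀ l1Ball) ⊂ suppHyp l1Ball := by
  refine ⟨isCompact_l1Ball, convex_l1Ball, interior_l1Ball_nonempty, ⟨T0, T0_functional, isCSupport_T0⟩,
    isUniqueCSupport_l1Ball, suppHyp₀_l1Ball, ?_⟩
  rw [suppHyp₀_l1Ball, closure_empty, Set.empty_ssubset]
  exact suppHyp_l1Ball_nonempty

end Pool.Agent.Results.MP_564bf3_an.UniqueSupportBall
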